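import Pool.Agent.Q299.Graphon.Final

/-!
# MP_e2d9cc_pr, Q1: the negated form holds

The graphon is `W(x, y) = g(x) g(y) > 0` on `(0, 1]`, where `g = s_k ^ 2` on `(s_{k+1}, s_k]`,
`s_0 = 1` and `s_{k+1} = s_k ^ 2 / √(4 + log (1 / s_k))`. It is positive everywhere, and
`μ(D(α)) / α` does not tend to infinity (it tends to `0` along a sequence), but for all large `n`
the random graph `G(n, W)` has an isolated vertex with probability tending to `1`.
-/

namespace Pool.Agent.Results.MP_e2d9cc_pr.FifthReason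

open MeasureTheory Filter Topology Q299.Graphon

/-- Q1 has a negative answer. -/
theorem result :
    (∃ (Ω : Type) (_ : MeasurableSpace Ω) (_ : StandardBorelSpace Ω) (μ : Measure Ω)
      (_ : IsProbabilityMeasure μ) (W : Ω → Ω → ℝ), (∀ x, μ {x} = 0) ∧
      IsGraphon W ∧ Connected μ W ∧ ¬ ManyLowDeg μ W ∧ ¬ NarrowPeninsula μ W ∧
      ¬ BalancedBipartite μ W ∧
      Tendsto (fun n => graphProb μ W n (fun G => G.IsHamiltonian)) atTop (𝓝 0)) ∧
    ¬ (∀ (Ω : Type) (_ : MeasurableSpace Ω) (_ : StandardBorelSpace Ω) (μ : Measure Ω)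
      (_ : IsProbabilityMeasure μ) (W : Ω → Ω → ℝ), (∀ x, μ {x} = 0) →
      IsGraphon W → Connected μ W → ¬ ManyLowDeg μ W → ¬ NarrowPeninsula μ W →
      ¬ BalancedBipartite μ W →
      0 < limsup (fun n => graphProb μ W n (fun G => G.IsHamiltonian)) atTop) := by
  refine ⟨⟨ℝ, inferInstance, inferInstance, μ0, inferInstance, W0, fun x => measure_singleton x,
    isGraphon, connected, not_many, not_narrow, not_bip, ham_tendsto⟩, ?_⟩
  intro h
  have h1 := h ℝ inferInstance inferInstance μ0 inferInstance W0 (fun x => measure_singleton x)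
    isGraphon connected not_many not_narrow not_bip
  rw [ham_tendsto.limsup_eq] at h1
  exact lt_irrefl _ h1

end Pool.Agent.Results.MP_e2d9cc_pr.FifthReason
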